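import Pool.Agent.L7h96.RC.Model
import Pool.Agent.L7h96.RC.Conn

set_option autoImplicit false
set_option linter.unusedSectionVars false
set_option linter.unusedSimpArgs false

open Finset

namespace Pool.Agent.L7h90.RC

open Pool.Agent.L7h96.RC

variable {d : ℕ}

/-- removing one edge from a connected pair -/
theorem split_reach {O : Set (Ed d)} {u w : V d} (e : Ed d) (h : (gr O).Reachable u w) :
    (gr (O \ {e})).Reachable u w ∨ ((gr O).Reachable u e.1 ∧ (gr O).Reachable u (tg e) ∧
      ((gr (O \ {e})).Reachable e.1 w ∨ (gr (O \ {e})).Reachable (tg e) w)) := by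
  rw [SimpleGraph.reachable_iff_reflTransGen] at h
  induction h with
  | refl => exact Or.inl (SimpleGraph.Reachable.refl _)
  | @tail a b hab hadj ih =>
    have hr : (gr O).Reachable u a := (SimpleGraph.reachable_iff_reflTransGen _ _).2 hab
    obtain ⟨e', he', hh⟩ := hadj
    have hrb : (gr O).Reachable u b := hr.trans (SimpleGraph.Adj.reachable ⟨e', he', hh⟩)
    by_cases hee : e' = e
    · subst hee
      right
      rcases hh with ⟨rfl, rfl⟩ | ⟨rfl, rfl⟩
      · exact ⟨hr, hrb, Or.inr (SimpleGraph.Reachable.refl _)⟩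
      · exact ⟨hrb, hr, Or.inl (SimpleGraph.Reachable.refl _)⟩
    · have hadj' : (gr (O \ {e})).Reachable a b :=
        SimpleGraph.Adj.reachable ⟨e', ⟨he', hee⟩, hh⟩
      rcases ih with ih | ⟨h1, h2, ih | ih⟩
      · exact Or.inl (ih.trans hadj')
      · exact Or.inr ⟨h1, h2, Or.inl (ih.trans hadj')⟩
      · exact Or.inr ⟨h1, h2, Or.inr (ih.trans hadj')⟩

/-- removing one edge leaves an infinite piece -/
theorem split_inf {O : Set (Ed d)} {u : V d} (e : Ed d) (h : Inf O u) :
    ∃ u', (gr O).Reachable u u' ∧ Inf (O \ {e}) u' := by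
  by_contra hn
  have hn' : ∀ u', (gr O).Reachable u u' → {w | (gr (O \ {e})).Reachable u' w}.Finite := by
    intro u' h1
    by_contra h2
    exact hn ⟨u', h1, h2⟩
  apply h
  have h1 := hn' u (SimpleGraph.Reachable.refl _)
  by_cases hc : (gr O).Reachable u e.1 ∧ (gr O).Reachable u (tg e)
  · refine ((h1.union (hn' _ hc.1)).union (hn' _ hc.2)).subset ?_
    intro w hw
    rcases split_reach e hw with h | ⟨_, _, h | h⟩
    · exact Or.inl (Or.inl h)
    · exact Or.inl (Or.inr h)
    · exact Or.inr h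
  · refine h1.subset ?_
    intro w hw
    rcases split_reach e hw with h | ⟨h2, h3, _⟩
    · exact h
    · exact absurd ⟨h2, h3⟩ hc

/-- removing finitely many edges leaves an infinite piece -/
theorem fin_inf (T : Finset (Ed d)) : ∀ {O : Set (Ed d)} {u : V d}, Inf O u →
    ∃ u', (gr O).Reachable u u' ∧ Inf (O \ ↑T) u' := by
  classical
  induction T using Finset.induction_on with
  | empty =>
    intro O u h
    exact ⟨u, SimpleGraph.Reachable.refl _, by simpa using h⟩
  | @insert e T _ ih =>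
    intro O u h
    obtain ⟨u1, h1, h2⟩ := split_inf e h
    obtain ⟨u2, h3, h4⟩ := ih h2
    refine ⟨u2, h1.trans (reach_mono Set.sdiff_subset h3), ?_⟩
    refine inf_mono ?_ h4
    intro x hx
    refine ⟨hx.1.1, fun hx' => ?_⟩
    rw [mem_coe, mem_insert] at hx'
    rcases hx' with hx' | hx'
    · exact hx.1.2 hx'
    · exact hx.2 hx'

/-- boxes are connected -/
theorem box_zero {n : ℕ} : ∀ (m : ℕ) {v : V d}, ∑ j, (v j).natAbs = m → v ∈ box d n →
    (gr (↑(edg d n) : Set (Ed d))).Reachable v 0 := by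
  intro m
  induction m using Nat.strong_induction_on with
  | _ m ih =>
    intro v hm hv
    by_cases h0 : v = 0
    · rw [h0]
    · obtain ⟨j, hj⟩ : ∃ j, v j ≠ 0 := by
        by_contra hc
        push Not at hc
        exact h0 (funext hc)
      obtain ⟨v', hb, hlt, hadj⟩ : ∃ v' : V d, v' ∈ box d n ∧
          ∑ i, (v' i).natAbs < ∑ i, (v i).natAbs ∧
          (v' ∈ box d n → (gr (↑(edg d n) : Set (Ed d))).Adj v v') := by
        rcases lt_or_gt_of_ne hj with hj | hj
        · refine ⟨v + Pi.single j 1, ?_, ?_, ?_⟩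
          · rw [mem_box] at hv ⊢
            intro i
            have h1 := hv i
            rw [Pi.add_apply, Pi.single_apply]
            split_ifs with hi
            · subst hi
              rw [abs_le] at h1 ⊢
              omega
            · rwa [add_zero]
          · refine sum_lt_sum (fun i _ => ?_) ⟨j, mem_univ _, ?_⟩
            · rw [Pi.add_apply, Pi.single_apply]
              split_ifs with hi
              · subst hi; omega
              · rw [add_zero]
            · rw [Pi.add_apply, Pi.single_eq_same]; omega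
          · intro hb
            exact ⟨(v, j), mem_coe.2 (mem_edg.2 ⟨hv, hb⟩), Or.inl ⟨rfl, rfl⟩⟩
        · refine ⟨v - Pi.single j 1, ?_, ?_, ?_⟩
          · rw [mem_box] at hv ⊢
            intro i
            have h1 := hv i
            rw [Pi.sub_apply, Pi.single_apply]
            split_ifs with hi
            · subst hi
              rw [abs_le] at h1 ⊢
              omega
            · rwa [sub_zero]
          · refine sum_lt_sum (fun i _ => ?_) ⟨j, mem_univ _, ?_⟩
            · rw [Pi.sub_apply, Pi.single_apply]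
              split_ifs with hi
              · subst hi; omega
              · rw [sub_zero]
            · rw [Pi.sub_apply, Pi.single_eq_same]; omega
          · intro hb
            have ht : tg ((v - Pi.single j 1, j) : Ed d) = v := by simp [tg]
            refine ⟨(v - Pi.single j 1, j), mem_coe.2 (mem_edg.2 ⟨hb, ?_⟩), Or.inr ⟨?_, rfl⟩⟩
            · rw [ht]; exact hv
            · rw [ht]
      exact (hadj hb).reachable.trans (ih _ (hm ▸ hlt) rfl hb)

theorem box_reach {n : ℕ} {v w : V d} (hv : v ∈ box d n) (hw : w ∈ box d n) :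
    (gr (↑(edg d n) : Set (Ed d))).Reachable v w :=
  (box_zero _ rfl hv).trans (box_zero _ rfl hw).symm

/-- correction chains -/
theorem correct {E S : Set (Ed d)} {e₀ : Ed d}
    (hL : ∀ e ∈ E, e ≠ e₀ → ∃ L : Finset (Ed d), bd DB L = 0 ∧ ↑L ⊆ S ∧
      (∀ x ∈ E, x ≠ e₀ → (x ∈ L ↔ x = e)))
    (P : Finset (Ed d)) (hP : ∀ x ∈ P, x ∈ E) :
    ∃ K : Finset (Ed d), bd DB K = 0 ∧ ↑K ⊆ S ∧ ∀ x ∈ E, x ≠ e₀ → (x ∈ K ↔ x ∈ P) := by
  classical
  induction P using Finset.induction_on with
  | empty => exact ⟨∅, bd_empty _, by simp, by simp⟩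
  | @insert e P heP ih =>
    obtain ⟨K, hK, hKS, hx⟩ := ih (fun x hx => hP x (mem_insert_of_mem hx))
    by_cases he : e = e₀
    · refine ⟨K, hK, hKS, fun x hxE hne => ?_⟩
      rw [hx x hxE hne, mem_insert]
      constructor
      · exact Or.inr
      · rintro (h | h)
        · exact absurd (h.trans he) hne
        · exact h
    · obtain ⟨L, hL1, hLS, hL2⟩ := hL e (hP e (mem_insert_self _ _)) he
      refine ⟨symmDiff K L, by rw [bd_symmDiff, hK, hL1, add_zero], ?_, fun x hxE hne => ?_⟩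
      · intro x hx
        rw [mem_coe, mem_symmDiff] at hx
        rcases hx with hx | hx
        · exact hKS hx.1
        · exact hLS hx.1
      rw [mem_symmDiff, mem_insert, hx x hxE hne, hL2 x hxE hne]
      constructor
      · rintro (h | h)
        · exact Or.inr h.1
        · exact Or.inl h.1
      · rintro (h | h)
        · right; rw [h]; exact ⟨rfl, heP⟩
        · left; exact ⟨h, fun h' => heP (h' ▸ h)⟩

/-- the edges that touch a box -/
def tch (d n : ℕ) : Set (Ed d) := {e | e.1 ∈ box d n ∨ tg e ∈ box d n}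

theorem tch_eq (n : ℕ) : ∃ T : Finset (Ed d), (↑T : Set (Ed d)) = tch d n := by
  classical
  refine ⟨(box d n).biUnion inc, ?_⟩
  ext e
  rw [mem_coe, mem_biUnion]
  constructor
  · rintro ⟨v, hv, he⟩
    rw [mem_inc] at he
    rcases he with rfl | rfl
    · exact Or.inl hv
    · exact Or.inr hv
  · rintro (h | h)
    · exact ⟨_, h, mem_inc.2 (Or.inl rfl)⟩
    · exact ⟨_, h, mem_inc.2 (Or.inr rfl)⟩

theorem not_box {O : Set (Ed d)} {n : ℕ} {u w : V d} (hu : Inf (O \ tch d n) u)
    (hw : (gr (O \ tch d n)).Reachable u w) : w ∉ box d n := by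
  intro hb
  have h1 : Inf (O \ tch d n) w := inf_reach hw hu
  apply h1
  refine (Set.finite_singleton w).subset ?_
  intro x hx
  refine reach_ind (P := fun x => x ∈ ({w} : Set (V d))) rfl ?_ hx
  intro e he _
  have h2 : ¬ (e.1 ∈ box d n ∨ tg e ∈ box d n) := he.2
  constructor
  · intro h
    rw [Set.mem_singleton_iff] at h
    exact absurd (Or.inl (h ▸ hb)) h2
  · intro h
    rw [Set.mem_singleton_iff] at h
    exact absurd (Or.inr (h ▸ hb)) h2

/-- the geometric core -/
theorem core {O p q : Set (Ed d)} (hp : p ⊆ O) (hq : q ⊆ O) {n : ℕ} {u v : V d}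
    (hu : Inf (O \ tch d n) u) (hv : Inf (O \ tch d n) v)
    (huv : ¬ (gr (O \ tch d n)).Reachable u v) :
    ∃ K₁ K₂ U C : Finset (Ed d), bd DB K₁ = 0 ∧ bd DB K₂ = 0 ∧
      (¬ Uq ((O ∪ ↑U) \ ↑C ∪ symmDiff p ↑K₁ ∪ symmDiff q ↑K₂) ∨
        ∃ e, Br ((O ∪ ↑U) \ ↑C ∪ symmDiff p ↑K₁ ∪ symmDiff q ↑K₂) e) := by
  classical
  set A : Set (V d) := {w | (gr (O \ tch d n)).Reachable u w} with hA
  have huA : u ∈ A := SimpleGraph.Reachable.refl _
  have hvA : v ∉ A := huv
  have hAb : ∀ w ∈ A, w ∉ box d n := fun w hw => not_box hu hw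
  have hstep : ∀ e ∈ O, e ∉ tch d n → (e.1 ∈ A ↔ tg e ∈ A) := by
    intro e he ht
    have hadj := (gr_adj (O := O \ tch d n) (e := e) ⟨he, ht⟩).reachable
    exact ⟨fun h => SimpleGraph.Reachable.trans h hadj,
      fun h => SimpleGraph.Reachable.trans h hadj.symm⟩
  set E : Set (Ed d) := {e | e ∈ O ∧ ((e.1 ∈ A ∧ tg e ∈ box d n) ∨ (tg e ∈ A ∧ e.1 ∈ box d n))}
    with hE
  have hEt : E ⊆ tch d n := by
    rintro e ⟨_, h | h⟩
    · exact Or.inr h.2
    · exact Or.inl h.2
  obtain ⟨T, hT⟩ := tch_eq (d := d) n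
  have hEfin : E.Finite := (T.finite_toSet).subset (by rw [hT]; exact hEt)
  set O₀ : Set (Ed d) := (O ∪ ↑(edg d n)) \ E with hO₀
  have hcl : ∀ e ∈ O₀, (e.1 ∈ A ↔ tg e ∈ A) := by
    rintro e ⟨he | he, hne⟩
    · by_cases ht : e ∈ tch d n
      · constructor
        · intro h
          exfalso
          rcases ht with ht | ht
          · exact hAb _ h ht
          · exact hne ⟨he, Or.inl ⟨h, ht⟩⟩
        · intro h
          exfalso
          rcases ht with ht | ht
          · exact hne ⟨he, Or.inr ⟨h, ht⟩⟩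
          · exact hAb _ h ht
      · exact hstep e he ht
    · rw [mem_coe, mem_edg] at he
      exact ⟨fun h => absurd he.1 (hAb _ h), fun h => absurd he.2 (hAb _ h)⟩
  have hR0 : O \ tch d n ⊆ O₀ := fun e he => ⟨Or.inl he.1, fun h => he.2 (hEt h)⟩
  have hsep : ∀ x ∈ A, ∀ y, (gr O₀).Reachable x y → y ∈ A := fun x hx y hxy =>
    reach_ind (P := fun y => y ∈ A) hx (fun e he _ => hcl e he) hxy
  have hu0 : Inf O₀ u := inf_mono hR0 hu
  have hv0 : Inf O₀ v := inf_mono hR0 hv
  -- the final step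
  have fin : ∀ O' : Set (Ed d), O₀ ⊆ O' → (O' ⊆ O₀ ∨ ∃ e₀ ∈ E, O' ⊆ O₀ ∪ {e₀}) →
      (¬ Uq O' ∨ ∃ e, Br O' e) := by
    intro O' h1 h2
    by_cases hUq : Uq O'
    · have h3 := hUq u v (inf_mono h1 hu0) (inf_mono h1 hv0)
      rcases h2 with h2 | ⟨e₀, he₀, h2⟩
      · exact absurd (hsep u huA v (reach_mono h2 h3)) hvA
      · have he0 : e₀ ∉ O₀ := fun h => h.2 he₀
        by_cases hmem : e₀ ∈ O'
        · have heq : O' \ {e₀} = O₀ := by
            ext x
            constructor
            · rintro ⟨hx, hx'⟩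
              rcases h2 hx with h | h
              · exact h
              · exact absurd h hx'
            · intro hx
              exact ⟨h1 hx, fun h => he0 (by rw [Set.mem_singleton_iff] at h; rwa [← h])⟩
          right
          have h4 := split_reach e₀ h3
          rw [heq] at h4
          refine ⟨e₀, hmem, ?_⟩
          rw [heq]
          have hvv : (gr O₀).Reachable e₀.1 v ∨ (gr O₀).Reachable (tg e₀) v := by
            rcases h4 with h4 | ⟨_, _, h4⟩
            · exact absurd (hsep u huA v h4) hvA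
            · exact h4
          rcases he₀.2 with ⟨ha, hb⟩ | ⟨ha, hb⟩
          · refine ⟨fun h => hAb _ (hsep _ ha _ h) hb, ?_, ?_⟩
            · exact inf_mono hR0 (inf_reach ha hu)
            · rcases hvv with h | h
              · exact absurd (hsep _ ha _ h) hvA
              · exact inf_reach h.symm hv0
          · refine ⟨fun h => hAb _ (hsep _ ha _ h.symm) hb, ?_, ?_⟩
            · rcases hvv with h | h
              · exact inf_reach h.symm hv0
              · exact absurd (hsep _ ha _ h) hvA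
            · exact inf_mono hR0 (inf_reach ha hu)
        · have h4 : O' ⊆ O₀ := by
            intro x hx
            rcases h2 hx with h | h
            · exact h
            · rw [Set.mem_singleton_iff] at h
              exact absurd (h ▸ hx) hmem
          exact absurd (hsep u huA v (reach_mono h4 h3)) hvA
    · exact Or.inl hUq
  by_cases hne : ∃ e₀, e₀ ∈ E
  swap
  · refine ⟨∅, ∅, edg d n, ∅, bd_empty _, bd_empty _, fin _ ?_ (Or.inl ?_)⟩
    · intro x hx
      exact Or.inl (Or.inl ⟨hx.1, by simp⟩)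
    · rintro x ((hx | hx) | hx)
      · exact ⟨hx.1, fun h => hne ⟨x, h⟩⟩
      · have : x ∈ p := by simpa [Set.mem_symmDiff] using hx
        exact ⟨Or.inl (hp this), fun h => hne ⟨x, h⟩⟩
      · have : x ∈ q := by simpa [Set.mem_symmDiff] using hx
        exact ⟨Or.inl (hq this), fun h => hne ⟨x, h⟩⟩
  obtain ⟨e₀, he₀⟩ := hne
  have hends : ∀ e ∈ E, ∃ a ∈ A, ∃ b ∈ box d n,
      DB e = Finsupp.single a 1 + Finsupp.single b 1 := by
    rintro e ⟨_, h | h⟩
    · exact ⟨_, h.1, _, h.2, rfl⟩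
    · exact ⟨_, h.1, _, h.2, add_comm _ _⟩
  obtain ⟨a₀, ha₀, b₀, hb₀, hD₀⟩ := hends e₀ he₀
  have hL : ∀ e ∈ E, e ≠ e₀ → ∃ L : Finset (Ed d), bd DB L = 0 ∧
      (↑L : Set (Ed d)) ⊆ O ∪ ↑(edg d n) ∧ (∀ x ∈ E, x ≠ e₀ → (x ∈ L ↔ x = e)) := by
    intro e he hne
    obtain ⟨a, ha, b, hb, hD⟩ := hends e he
    obtain ⟨KA, hKA, hbA⟩ := reach_chain (O := O \ tch d n) (u := a) (v := a₀)
      (SimpleGraph.Reachable.trans (SimpleGraph.Reachable.symm ha) ha₀)
    obtain ⟨KB, hKB, hbB⟩ := reach_chain (box_reach hb hb₀)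
    refine ⟨symmDiff (symmDiff {e} {e₀}) (symmDiff KA KB), ?_, ?_, ?_⟩
    · rw [bd_symmDiff, bd_symmDiff, bd_symmDiff, hbA, hbB]
      have h1 : ∀ e : Ed d, bd DB ({e} : Finset (Ed d)) = DB e := fun e => by simp [bd]
      rw [h1, h1, hD, hD₀]
      have h2 : ∀ x y z w : X d, x + y + (z + w) + (x + z + (y + w)) =
          (x + x) + (y + y) + ((z + z) + (w + w)) := fun x y z w => by abel
      rw [h2]
      simp only [add_self', add_zero]
    · intro x hx
      rw [mem_coe, mem_symmDiff, mem_symmDiff, mem_symmDiff, mem_singleton, mem_singleton] at hx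
      rcases hx with ⟨⟨h, _⟩ | ⟨h, _⟩, _⟩ | ⟨⟨h, _⟩ | ⟨h, _⟩, _⟩
      · rw [h]; exact Or.inl he.1
      · rw [h]; exact Or.inl he₀.1
      · exact Or.inl (hKA h).1
      · exact Or.inr (hKB h)
    · intro x hx hx0
      have h1 : x ∉ KA := fun h => (hKA h).2 (hEt hx)
      have h2 : x ∉ KB := by
        intro h
        have h3 := hKB h
        rw [mem_coe, mem_edg] at h3
        rcases hx.2 with h4 | h4
        · exact hAb _ h4.1 h3.1
        · exact hAb _ h4.1 h3.2
      rw [mem_symmDiff, mem_symmDiff, mem_symmDiff, mem_singleton, mem_singleton]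
      tauto
  have hfix : ∀ r : Set (Ed d), r ⊆ O → ∃ K : Finset (Ed d), bd DB K = 0 ∧
      symmDiff r ↑K ⊆ O₀ ∪ {e₀} := by
    intro r hr
    obtain ⟨K, hK, hKS, hx⟩ := correct hL (hEfin.subset
      (Set.inter_subset_left (s := E) (t := r))).toFinset
      (fun x hx => by rw [Set.Finite.mem_toFinset] at hx; exact hx.1)
    refine ⟨K, hK, ?_⟩
    intro x hxm
    have hxS : x ∈ O ∪ ↑(edg d n) := by
      rw [Set.mem_symmDiff] at hxm
      rcases hxm with h | h
      · exact Or.inl (hr h.1)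
      · exact hKS h.1
    by_cases hxE : x ∈ E
    · by_cases hx0 : x = e₀
      · exact Or.inr hx0
      · exfalso
        have h3 := hx x hxE hx0
        rw [Set.Finite.mem_toFinset, Set.mem_inter_iff] at h3
        rw [Set.mem_symmDiff, mem_coe] at hxm
        tauto
    · exact Or.inl ⟨hxS, hxE⟩
  obtain ⟨K₁, hK₁, hs₁⟩ := hfix p hp
  obtain ⟨K₂, hK₂, hs₂⟩ := hfix q hq
  have hC : (↑(hEfin.toFinset) : Set (Ed d)) = E := hEfin.coe_toFinset
  refine ⟨K₁, K₂, edg d n, hEfin.toFinset, hK₁, hK₂, ?_⟩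
  rw [hC]
  refine fin _ (fun x hx => Or.inl (Or.inl hx)) (Or.inr ⟨e₀, he₀, ?_⟩)
  rintro x ((hx | hx) | hx)
  · exact Or.inl hx
  · exact hs₁ hx
  · exact hs₂ hx

/-- the surgery -/
theorem surg : S_SURG := by
  intro d O p q hp hq h
  unfold OneEnd at h
  push Not at h
  obtain ⟨F, u, v, _, hu, hv, huv⟩ := h
  obtain ⟨n, hn⟩ := exists_box_finset F
  obtain ⟨T, hT⟩ := tch_eq (d := d) n
  have hsub : O \ tch d n ⊆ O \ {e | e.1 ∈ F ∨ tg e ∈ F} := by
    intro e he
    refine ⟨he.1, fun h => he.2 ?_⟩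
    rcases h with h | h
    · exact Or.inl (hn h)
    · exact Or.inr (hn h)
  have hTsub : (O \ {e | e.1 ∈ F ∨ tg e ∈ F}) \ ↑T ⊆ O \ tch d n := by
    rw [hT]
    intro e he
    exact ⟨he.1.1, he.2⟩
  obtain ⟨u', hru, hiu⟩ := fin_inf T hu
  obtain ⟨v', hrv, hiv⟩ := fin_inf T hv
  refine core hp hq (inf_mono hTsub hiu) (inf_mono hTsub hiv) ?_
  intro hr
  exact huv (hru.trans ((reach_mono hsub hr).trans hrv.symm))

end Pool.Agent.L7h90.RC
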